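import Pool.Agent.HIP.Stmts

/-! Squad HIP (MP_c1bb77_ag), module MNM (helper44): monomials of a power series. -/

set_option autoImplicit false

namespace Pool.Agent.HIP.H44

open Polynomial

theorem mnm : MnmStmt := by
  intro R _ p N c i j
  obtain ⟨P, hP⟩ : ∃ P : R[X], P = ∑ k ∈ Finset.range N, C (c k) * X ^ k := ⟨_, rfl⟩
  obtain ⟨Q, hQ⟩ : ∃ Q : R[X], Q = X ^ i * P ^ j := ⟨_, rfl⟩
  refine ⟨fun k => Q.coeff k, fun b y h => ?_⟩
  have e1 : P.eval (p * b) = ∑ k ∈ Finset.range N, c k * (p * b) ^ k := by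
    rw [hP, eval_finsetSum]
    refine Finset.sum_congr rfl fun k _ => ?_
    rw [eval_mul, eval_C, eval_pow, eval_X]
  rw [← e1] at h
  have e2 : Q.eval (p * b) = (p * b) ^ i * (P.eval (p * b)) ^ j := by
    rw [hQ, eval_mul, eval_pow, eval_X, eval_pow]
  have e3 : Q.eval (p * b) = ∑ k ∈ Finset.range N, Q.coeff k * (p * b) ^ k +
      ∑ k ∈ Finset.range (Q.natDegree + 1), Q.coeff (N + k) * (p * b) ^ (N + k) := by
    rw [eval_eq_sum_range' (n := N + (Q.natDegree + 1)) (by omega), Finset.sum_range_add]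
  have d1 : p ^ N ∣ (p * b) ^ i * y ^ j - Q.eval (p * b) := by
    rw [e2, ← mul_sub]
    exact Dvd.dvd.mul_left (h.trans (sub_dvd_pow_sub_pow _ _ _)) _
  have d2 : p ^ N ∣ ∑ k ∈ Finset.range (Q.natDegree + 1),
      Q.coeff (N + k) * (p * b) ^ (N + k) := by
    refine Finset.dvd_sum fun k _ => Dvd.dvd.mul_left ?_ _
    rw [mul_pow, pow_add, mul_assoc]
    exact Dvd.intro _ rfl
  have e4 : (p * b) ^ i * y ^ j - ∑ k ∈ Finset.range N, Q.coeff k * (p * b) ^ k =
      ((p * b) ^ i * y ^ j - Q.eval (p * b)) + ∑ k ∈ Finset.range (Q.natDegree + 1),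
        Q.coeff (N + k) * (p * b) ^ (N + k) := by
    rw [e3]
    ring
  rw [e4]
  exact dvd_add d1 d2

end Pool.Agent.HIP.H44
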